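import Mathlib
import Pool.Agent.R126.Gap.ElemDefs
import Pool.Agent.R126.Gap.Elem
import Pool.Agent.R126.Gap.Count
import Pool.Agent.R126.Gap.Assemble
import Pool.Agent.R21.GapSchur
import Pool.Agent.R668.Gap.GapKNec
import Pool.Agent.R668.Gap.GapElim
import Pool.Agent.R258.GapMid
import Pool.Agent.R62.GapSpecA
import Pool.Agent.R906.GapSpecB
import Pool.Agent.R634.GapDim

/-!
# The closed-gap locus can have codimension one for `p = 3`

The graph is the theta graph with one edge subdivided: vertices 0, 1, 2, two edges from 0 to 1, an
edge from 0 to 2 and an edge from 2 to 1.  For it the parameters with all gaps open are dense and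
the closed-gap locus has Hausdorff dimension `6 = p + q - 1`.

All definitions (multigraphs, universal covers, lifted Jacobi matrices, gaps) are in
`Pool.Agent.R126.Gap.Defs` and `Pool.Agent.R126.Gap.ElemDefs`.  The spectrum is described as the set
of `x` such that `H - x` is not a bijection of `ℓ²` onto itself; `MGraph.specE_eq` proves that it
is the spectrum of the bounded operator `H` in the sense of Mathlib.
-/

set_option autoImplicit false

open scoped ENNReal

namespace Pool.Agent.Results.MP_a3b80b_mp.CodimensionOne

open Pool.Agent.R126.Gap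

/-- There is a finite connected graph without leaves, with three vertices, such that the set of
Jacobi parameters with all gaps open is dense and its complement (the closed-gap locus) has
codimension exactly one. -/
theorem result :
    ∃ G : MGraph, G.Connected ∧ G.Leafless ∧ Fintype.card G.V = 3 ∧
      G.Par ⊆ closure G.AllOpen ∧
      dimH G.ClosedGap + 1 = ((Fintype.card G.V + Fintype.card G.E : ℕ) : ℝ≥0∞) := by
  obtain ⟨G, h1, h2, h3, h4, h5⟩ := result_of
    (Pool.Agent.R906.GapSpecB.iso_of Pool.Agent.R62.GapSpecA.specBB)
    (count1_of Pool.Agent.R21.GapSchur.kSuff kNec elim (mid_of Pool.Agent.R21.GapSchur.schurUp))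
    (count2_of Pool.Agent.R21.GapSchur.kSuff kNec elim (mid_of Pool.Agent.R21.GapSchur.schurUp))
    Pool.Agent.R634.GapDim.dim1 Pool.Agent.R634.GapDim.dim2 Pool.Agent.R634.GapDim.dim3
  exact ⟨G, h1, h2, h3, by rw [MGraph.AllOpen_eq]; exact h4, by rw [MGraph.ClosedGap_eq]; exact h5⟩

end Pool.Agent.Results.MP_a3b80b_mp.CodimensionOne
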